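import Pool.Agent.RR59.Density

/-!
# Ever-branching sets with constant monotone functions

If every bounded monotone real function on a tree is constant on some ever-branching subset, then
the space of the tree has no rotund renorming.
-/

open Set Cardinal Filter Topology

namespace Pool.Agent.KW4

open Pool.Agent.RR59

variable {T : Type} [PartialOrder T]

/-- evaluation at `s` -/
noncomputable def ev (s : T) : span T →ₗ[ℝ] ℝ where
  toFun x := (x : lp (fun _ : T => ℝ) ⊤) s
  map_add' x y := by simp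
  map_smul' r x := by simp

theorem abs_ev_le (s : T) (x : span T) : |ev s x| ≤ ‖x‖ :=
  lp.norm_apply_le_norm ENNReal.top_ne_zero (x : lp (fun _ : T => ℝ) ⊤) s

theorem norm_le_of_ev {x : span T} {C : ℝ} (hC : 0 ≤ C) (h : ∀ s, |ev s x| ≤ C) : ‖x‖ ≤ C :=
  lp.norm_le_of_forall_le (f := (x : lp (fun _ : T => ℝ) ⊤)) hC h

open Classical in
theorem ev_el (s t : T) : ev s (el T t) = if s ≤ t then 1 else 0 := ind_apply T t s

/-- the convex hull of the indicator functions of the nodes above `t` -/
def F (t : T) : Set (span T) := convexHull ℝ (el T '' Ici t)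

theorem F_anti {t u : T} (h : t ≤ u) : F u ⊆ F t :=
  convexHull_mono (image_mono (Ici_subset_Ici.2 h))

theorem el_mem_F {t u : T} (h : t ≤ u) : el T u ∈ F t := subset_convexHull ℝ _ ⟨u, h, rfl⟩

theorem half_mem_F {t : T} {x y : span T} (hx : x ∈ F t) (hy : y ∈ F t) :
    (1 / 2 : ℝ) • (x + y) ∈ F t := by
  rw [smul_add]
  exact (convex_convexHull ℝ (el T '' Ici t)) hx hy (by norm_num) (by norm_num) (by norm_num)

theorem F_ev {t : T} {x : span T} (hx : x ∈ F t) (s : T) : ev s x ∈ Icc (0 : ℝ) 1 := by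
  classical
  have : F t ⊆ (ev s) ⁻¹' (Icc 0 1) := by
    apply convexHull_min
    · rintro _ ⟨u, hu, rfl⟩
      rw [mem_preimage, ev_el]
      split_ifs <;> simp
    · exact (convex_Icc 0 1).is_linear_preimage (ev s).isLinear
  exact this hx

theorem F_ev_one {t : T} {x : span T} (hx : x ∈ F t) {s : T} (hs : s ≤ t) : ev s x = 1 := by
  classical
  have : F t ⊆ (ev s) ⁻¹' {1} := by
    apply convexHull_min
    · rintro _ ⟨u, hu, rfl⟩
      rw [mem_preimage, ev_el, if_pos (hs.trans hu)]
      rfl
    · exact (convex_singleton 1).is_linear_preimage (ev s).isLinear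
  exact this hx

theorem F_ev_zero (hT : ∀ t : T, IsChain (· ≤ ·) (Iic t)) {t : T} {x : span T} (hx : x ∈ F t)
    {s : T} (h1 : ¬ s ≤ t) (h2 : ¬ t ≤ s) : ev s x = 0 := by
  classical
  have : F t ⊆ (ev s) ⁻¹' {0} := by
    apply convexHull_min
    · rintro _ ⟨u, hu, rfl⟩
      rw [mem_preimage, ev_el, if_neg]
      · rfl
      · intro h
        rcases (hT u).total (mem_Iic.2 h) (mem_Iic.2 hu) with h' | h'
        · exact h1 h'
        · exact h2 h'
    · exact (convex_singleton 0).is_linear_preimage (ev s).isLinear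
  exact this hx

/-- the averages along a binary system -/
noncomputable def A (x : List Bool → span T) : ℕ → List Bool → span T
  | 0, l => x l
  | n + 1, l => (1 / 2 : ℝ) • (A x n (true :: l) + A x n (false :: l))

theorem A_succ (x : List Bool → span T) (n : ℕ) : ∀ l, A x (n + 1) l =
    A (fun l => (1 / 2 : ℝ) • (x (true :: l) + x (false :: l))) n l := by
  induction n with
  | zero => intro l; rfl
  | succ n ih => intro l; rw [A, ih, ih, A]

/-- a binary system of nodes -/
structure Sys (u : List Bool → T) : Prop where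
  le : ∀ b l, u l ≤ u (b :: l)
  inc : ∀ l, ¬ u (true :: l) ≤ u (false :: l) ∧ ¬ u (false :: l) ≤ u (true :: l)

variable {u : List Bool → T}

theorem A_mem (hu : Sys u) {x : List Bool → span T} (hx : ∀ l, x l ∈ F (u l)) (n : ℕ) :
    ∀ l, A x n l ∈ F (u l) := by
  induction n with
  | zero => exact hx
  | succ n ih =>
    intro l
    exact half_mem_F (F_anti (hu.le true l) (ih _)) (F_anti (hu.le false l) (ih _))

theorem A_diff (hT : ∀ t : T, IsChain (· ≤ ·) (Iic t)) (hu : Sys u) {x y : List Bool → span T}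
    (hx : ∀ l, x l ∈ F (u l)) (hy : ∀ l, y l ∈ F (u l)) (n : ℕ) : ∀ l s,
    (¬ u l ≤ s → ev s (A x n l) = ev s (A y n l)) ∧
      |ev s (A x n l) - ev s (A y n l)| ≤ (1 / 2 : ℝ) ^ n := by
  induction n with
  | zero =>
    intro l s
    constructor
    · intro h
      by_cases h' : s ≤ u l
      · exact (F_ev_one (hx l) h').trans (F_ev_one (hy l) h').symm
      · exact (F_ev_zero hT (hx l) h' h).trans (F_ev_zero hT (hy l) h' h).symm
    · have h1 := F_ev (hx l) s
      have h2 := F_ev (hy l) s
      rw [pow_zero, abs_le]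
      change -1 ≤ ev s (x l) - ev s (y l) ∧ ev s (x l) - ev s (y l) ≤ 1
      exact ⟨by linarith [h1.1, h2.2], by linarith [h1.2, h2.1]⟩
  | succ n ih =>
    intro l s
    obtain ⟨t1, t2⟩ := ih (true :: l) s
    obtain ⟨f1, f2⟩ := ih (false :: l) s
    have e : ∀ z : List Bool → span T, ev s (A z (n + 1) l) =
        1 / 2 * (ev s (A z n (true :: l)) + ev s (A z n (false :: l))) := by
      intro z
      rw [A, map_smul, map_add, smul_eq_mul]
    rw [e, e]
    constructor
    · intro h
      rw [t1 fun h' => h ((hu.le true l).trans h'), f1 fun h' => h ((hu.le false l).trans h')]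
    · have hor : ¬ u (true :: l) ≤ s ∨ ¬ u (false :: l) ≤ s := by
        by_contra hcon
        push Not at hcon
        rcases (hT s).total (mem_Iic.2 hcon.1) (mem_Iic.2 hcon.2) with h' | h'
        · exact (hu.inc l).1 h'
        · exact (hu.inc l).2 h'
      rw [pow_succ]
      rcases hor with h | h
      · rw [t1 h]
        rw [show 1 / 2 * (ev s (A y n (true :: l)) + ev s (A x n (false :: l))) -
          1 / 2 * (ev s (A y n (true :: l)) + ev s (A y n (false :: l))) =
          (ev s (A x n (false :: l)) - ev s (A y n (false :: l))) * (1 / 2) by ring, abs_mul,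
          abs_of_pos (by norm_num : (0 : ℝ) < 1 / 2)]
        exact mul_le_mul_of_nonneg_right f2 (by norm_num)
      · rw [f1 h]
        rw [show 1 / 2 * (ev s (A x n (true :: l)) + ev s (A y n (false :: l))) -
          1 / 2 * (ev s (A y n (true :: l)) + ev s (A y n (false :: l))) =
          (ev s (A x n (true :: l)) - ev s (A y n (true :: l))) * (1 / 2) by ring, abs_mul,
          abs_of_pos (by norm_num : (0 : ℝ) < 1 / 2)]
        exact mul_le_mul_of_nonneg_right t2 (by norm_num)

theorem A_norm (hT : ∀ t : T, IsChain (· ≤ ·) (Iic t)) (hu : Sys u) {x y : List Bool → span T}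
    (hx : ∀ l, x l ∈ F (u l)) (hy : ∀ l, y l ∈ F (u l)) (n : ℕ) (l : List Bool) :
    ‖A x n l - A y n l‖ ≤ (1 / 2 : ℝ) ^ n := by
  apply norm_le_of_ev (by positivity)
  intro s
  rw [map_sub]
  exact (A_diff hT hu hx hy n l s).2

/-- the limit of the averages of the indicator functions -/
theorem exists_limit (hT : ∀ t : T, IsChain (· ≤ ·) (Iic t)) (hu : Sys u) (l : List Bool) :
    ∃ z, Tendsto (fun n => A (fun l => el T (u l)) n l) atTop (𝓝 z) := by
  apply cauchySeq_tendsto_of_complete
  apply cauchySeq_of_le_geometric (1 / 2 : ℝ) 1 (by norm_num)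
  intro n
  rw [one_mul, dist_comm, dist_eq_norm, A_succ]
  exact A_norm hT hu (fun l => half_mem_F (el_mem_F (hu.le true l)) (el_mem_F (hu.le false l)))
    (fun l => el_mem_F le_rfl) n l

/-- **The main lemma.** -/
theorem not_rotund_of_ever (hT : ∀ t : T, IsChain (· ≤ ·) (Iic t))
    (h : ∀ μ : T → ℝ, Monotone μ → (∃ C, ∀ t, μ t ≤ C) → ∃ (B : Set T) (r : ℝ), B.Nonempty ∧
      (∀ t ∈ B, μ t = r) ∧ ∀ t ∈ B, ∃ v ∈ B, ∃ w ∈ B, t ≤ v ∧ t ≤ w ∧ ¬ v ≤ w ∧ ¬ w ≤ v)
    {N : span T → ℝ} (hN : EquivNorm (span T) N) : ¬ Rotund N := by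
  classical
  intro hR
  obtain ⟨c, C, hc, hC, hcC⟩ := hN.equiv
  have hbdd : ∀ t, BddBelow (N '' F (T := T) t) := fun t => ⟨0, by
    rintro _ ⟨x, _, rfl⟩
    exact hN.nonneg x⟩
  set μ : T → ℝ := fun t => sInf (N '' F t) with hμ
  have hμle : ∀ t x, x ∈ F t → μ t ≤ N x := fun t x hx => csInf_le (hbdd t) ⟨x, hx, rfl⟩
  have hmono : Monotone μ := fun t u h =>
    csInf_le_csInf (hbdd t) ⟨_, el T u, el_mem_F le_rfl, rfl⟩ (image_mono (F_anti h))
  have hNe : ∀ t, N (el T t) ≤ C := fun t =>
    (hcC _).2.trans (by nlinarith [norm_el_le t])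
  obtain ⟨B, r, ⟨t0, ht0⟩, hr, hB⟩ := h μ hmono
    ⟨C, fun t => (hμle t _ (el_mem_F le_rfl)).trans (hNe t)⟩
  -- the binary system
  have hch : ∀ t : B, ∃ p : B × B, t.1 ≤ p.1.1 ∧ t.1 ≤ p.2.1 ∧ ¬ p.1.1 ≤ p.2.1 ∧
      ¬ p.2.1 ≤ p.1.1 := by
    rintro ⟨t, ht⟩
    obtain ⟨v, hv, w, hw, h1, h2, h3, h4⟩ := hB t ht
    exact ⟨(⟨v, hv⟩, ⟨w, hw⟩), h1, h2, h3, h4⟩
  choose p hp1 hp2 hp3 hp4 using hch
  let U : List Bool → B := fun l => List.rec ⟨t0, ht0⟩
    (fun b _ t => if b then (p t).1 else (p t).2) l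
  have hUt : ∀ l, U (true :: l) = (p (U l)).1 := fun l => rfl
  have hUf : ∀ l, U (false :: l) = (p (U l)).2 := fun l => rfl
  set u : List Bool → T := fun l => (U l).1 with hu'
  have hu : Sys u := by
    constructor
    · intro b l
      cases b
      · change (U l).1 ≤ (U (false :: l)).1
        rw [hUf]
        exact hp2 _
      · change (U l).1 ≤ (U (true :: l)).1
        rw [hUt]
        exact hp1 _
    · intro l
      change ¬ (U (true :: l)).1 ≤ (U (false :: l)).1 ∧
        ¬ (U (false :: l)).1 ≤ (U (true :: l)).1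
      rw [hUt, hUf]
      exact ⟨hp3 _, hp4 _⟩
  have hμu : ∀ l, μ (u l) = r := fun l => hr _ (U l).2
  choose z hz using exists_limit hT hu
  -- `N` is Lipschitz
  have hLip : ∀ x y : span T, N x ≤ N y + C * ‖x - y‖ := by
    intro x y
    have h1 := hN.add_le y (x - y)
    rw [add_sub_cancel] at h1
    exact h1.trans (add_le_add le_rfl (hcC _).2)
  have hcont : Continuous N := by
    rw [Metric.continuous_iff]
    intro x ε hε
    refine ⟨ε / C, by positivity, fun y hy => ?_⟩
    rw [dist_eq_norm, lt_div_iff₀ hC, mul_comm] at hy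
    rw [Real.dist_eq, abs_lt]
    have h1 := hLip x y
    have h2 := hLip y x
    rw [norm_sub_rev] at h1
    exact ⟨by linarith, by linarith⟩
  have hNz : ∀ l, Tendsto (fun n => N (A (fun l => el T (u l)) n l)) atTop (𝓝 (N (z l))) :=
    fun l => (hcont.tendsto _).comp (hz l)
  have hge : ∀ l, r ≤ N (z l) := by
    intro l
    apply ge_of_tendsto' (hNz l)
    intro n
    rw [← hμu l]
    exact hμle _ _ (A_mem hu (fun l => el_mem_F le_rfl) n l)
  have hle : ∀ l, N (z l) ≤ r := by
    intro l
    have hlim : Tendsto (fun n : ℕ => r + 1 / ((n : ℝ) + 1) + C * (1 / 2 : ℝ) ^ n) atTop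
        (𝓝 (r + 0 + C * 0)) := by
      apply (tendsto_const_nhds.add tendsto_one_div_add_atTop_nhds_zero_nat).add
      exact tendsto_const_nhds.mul
        (tendsto_pow_atTop_nhds_zero_of_lt_one (by norm_num) (by norm_num))
    rw [mul_zero, add_zero, add_zero] at hlim
    refine le_of_tendsto_of_tendsto' (hNz l) hlim fun n => ?_
    have hex : ∀ l, ∃ y ∈ F (u l), N y < r + 1 / ((n : ℝ) + 1) := by
      intro l
      have h1 : μ (u l) < r + 1 / ((n : ℝ) + 1) := by
        rw [hμu]
        have : (0 : ℝ) < 1 / ((n : ℝ) + 1) := by positivity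
        linarith
      obtain ⟨_, ⟨y, hy, rfl⟩, hlt⟩ := exists_lt_of_csInf_lt
        (⟨_, el T (u l), el_mem_F le_rfl, rfl⟩ : (N '' F (u l)).Nonempty) h1
      exact ⟨y, hy, hlt⟩
    choose y hy hyN using hex
    have hNA : ∀ m l, N (A y m l) ≤ r + 1 / ((n : ℝ) + 1) := by
      intro m
      induction m with
      | zero => exact fun l => (hyN l).le
      | succ m ih =>
        intro l
        rw [A, hN.smul, abs_of_pos (by norm_num : (0 : ℝ) < 1 / 2)]
        have h1 := hN.add_le (A y m (true :: l)) (A y m (false :: l))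
        have h2 := ih (true :: l)
        have h3 := ih (false :: l)
        linarith
    refine (hLip _ (A y n l)).trans (add_le_add (hNA n l) ?_)
    exact mul_le_mul_of_nonneg_left
      (A_norm hT hu (fun l => el_mem_F le_rfl) hy n l) hC.le
  have hNr : ∀ l, N (z l) = r := fun l => le_antisymm (hle l) (hge l)
  -- the limit is the midpoint of the limits of the two halves
  have hmid : z [] = (1 / 2 : ℝ) • (z [true] + z [false]) := by
    apply tendsto_nhds_unique ((hz []).comp (tendsto_add_atTop_nat 1))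
    exact ((hz [true]).add (hz [false])).const_smul (1 / 2 : ℝ)
  have h1 : N (z [true] + z [false]) = 2 * N (z [true]) := by
    have h2 := hNr []
    rw [hmid, hN.smul, abs_of_pos (by norm_num : (0 : ℝ) < 1 / 2)] at h2
    rw [hNr]
    linarith
  have h2 : z [true] = z [false] := hR _ _ h1 (by rw [hNr, hNr])
  -- but they are different at the node `u [true]`
  have hevc : Continuous (ev (u [true])) := by
    rw [Metric.continuous_iff]
    intro x ε hε
    refine ⟨ε, hε, fun y hy => ?_⟩
    rw [dist_eq_norm] at hy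
    rw [Real.dist_eq, ← map_sub]
    exact (abs_ev_le _ _).trans_lt hy
  have e1 : ev (u [true]) (z [true]) = 1 := by
    apply tendsto_nhds_unique ((hevc.tendsto _).comp (hz [true]))
    apply tendsto_const_nhds.congr
    intro n
    exact (F_ev_one (A_mem hu (fun l => el_mem_F le_rfl) n _) le_rfl).symm
  have e2 : ev (u [true]) (z [false]) = 0 := by
    apply tendsto_nhds_unique ((hevc.tendsto _).comp (hz [false]))
    apply tendsto_const_nhds.congr
    intro n
    exact (F_ev_zero hT (A_mem hu (fun l => el_mem_F le_rfl) n _) (hu.inc []).1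
      (hu.inc []).2).symm
  rw [h2, e2] at e1
  exact zero_ne_one e1

end Pool.Agent.KW4
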