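import Pool.Agent.KW4.Ever

/-!
# Trees with many branches
-/

open Set Cardinal

namespace Pool.Agent.KW4

open Pool.Agent.RR59

section

variable {T : Type} [PartialOrder T]

/-- A bounded monotone real function is eventually constant on a countably directed set. -/
theorem exists_const {B : Set T} (hσ : ∀ C ⊆ B, C.Countable → ∃ b ∈ B, ∀ c ∈ C, c ≤ b)
    {μ : T → ℝ} (hμ : Monotone μ) {D : ℝ} (hD : ∀ t, μ t ≤ D) :
    ∃ t ∈ B, ∀ u ∈ B, t ≤ u → μ u = μ t := by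
  obtain ⟨b0, hb0, -⟩ := hσ ∅ (empty_subset _) countable_empty
  have hne : (μ '' B).Nonempty := ⟨_, b0, hb0, rfl⟩
  have hbd : BddAbove (μ '' B) := ⟨D, by
    rintro _ ⟨t, _, rfl⟩
    exact hD t⟩
  set s := sSup (μ '' B) with hs
  have hex : ∀ n : ℕ, ∃ t ∈ B, s - 1 / ((n : ℝ) + 1) < μ t := by
    intro n
    have h1 : s - 1 / ((n : ℝ) + 1) < s := by
      have : (0 : ℝ) < 1 / ((n : ℝ) + 1) := by positivity
      linarith
    obtain ⟨_, ⟨t, ht, rfl⟩, hlt⟩ := exists_lt_of_lt_csSup hne h1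
    exact ⟨t, ht, hlt⟩
  choose t ht hlt using hex
  obtain ⟨b, hb, hbt⟩ := hσ (range t) (by
    rintro _ ⟨n, rfl⟩
    exact ht n) (countable_range t)
  have hb1 : s ≤ μ b := by
    apply le_of_forall_pos_lt_add
    intro ε hε
    obtain ⟨n, hn⟩ := exists_nat_one_div_lt hε
    have h1 := hlt n
    have h2 := hμ (hbt (t n) ⟨n, rfl⟩)
    linarith
  refine ⟨b, hb, fun u hu hbu => le_antisymm ?_ (hμ hbu)⟩
  exact (le_csSup hbd ⟨u, hu, rfl⟩).trans hb1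

theorem ever_of_branches (hT : ∀ t : T, IsChain (· ≤ ·) (Iic t)) {κ : Cardinal.{0}}
    (hκ : ℵ₀ ≤ κ) (hTκ : #T ≤ κ) (𝓑 : Set (Set T)) (hB : κ < #𝓑)
    (hch : ∀ B ∈ 𝓑, IsChain (· ≤ ·) B)
    (hσ : ∀ B ∈ 𝓑, ∀ C ⊆ B, C.Countable → ∃ b ∈ B, ∀ c ∈ C, c ≤ b)
    (hsp : ∀ B ∈ 𝓑, ∀ B' ∈ 𝓑, B ≠ B' → ∃ x ∈ B, ∃ y ∈ B', ¬ x ≤ y ∧ ¬ y ≤ x)
    (μ : T → ℝ) (hμ : Monotone μ) (hD : ∃ C, ∀ t, μ t ≤ C) :
    ∃ (B : Set T) (r : ℝ), B.Nonempty ∧ (∀ t ∈ B, μ t = r) ∧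
      ∀ t ∈ B, ∃ v ∈ B, ∃ w ∈ B, t ≤ v ∧ t ≤ w ∧ ¬ v ≤ w ∧ ¬ w ≤ v := by
  obtain ⟨D, hD⟩ := hD
  have h1 : ∀ B : 𝓑, ∃ t ∈ B.1, ∀ u ∈ B.1, t ≤ u → μ u = μ t := fun B =>
    exists_const (hσ B.1 B.2) hμ hD
  choose τ hτ1 hτ2 using h1
  obtain ⟨t0, ht0⟩ : ∃ t0 : T, Order.succ κ ≤ #(τ ⁻¹' {t0}) := by
    apply infinite_pigeonhole_card τ (Order.succ κ) (Order.succ_le_of_lt hB)
      (hκ.trans (Order.le_succ κ))
    rw [(isRegular_succ hκ).cof_ord]
    exact Order.lt_succ_of_le hTκ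
  let S : T → Set 𝓑 := fun t => {B | τ B = t0 ∧ t ∈ B.1}
  set T0 : Set T := {t | t0 ≤ t ∧ κ < #(S t)} with hT0
  have ht0T : t0 ∈ T0 := by
    refine ⟨le_rfl, (Order.lt_succ κ).trans_le (ht0.trans (mk_le_mk_of_subset ?_))⟩
    intro B hBt
    have : τ B = t0 := hBt
    exact ⟨this, this ▸ hτ1 B⟩
  refine ⟨T0, μ t0, ⟨t0, ht0T⟩, ?_, ?_⟩
  · rintro t ⟨h1, h2⟩
    have h3 : (S t).Nonempty := by
      rw [nonempty_iff_ne_empty]
      intro h
      rw [h, mk_eq_zero] at h2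
      exact not_lt_bot h2
    obtain ⟨B, hB1, hB2⟩ := h3
    have := hτ2 B t hB2 (by rw [hB1]; exact h1)
    rw [this, hB1]
  · rintro t ⟨ht1, ht2⟩
    set Bad : Set 𝓑 := ⋃ b : {b : T // ¬ κ < #(S b)}, S b.1 with hBad
    have hBadκ : #Bad ≤ κ := by
      refine (mk_iUnion_le _).trans ?_
      refine (mul_le_mul' ((mk_subtype_le _).trans hTκ) (ciSup_le' fun b => ?_)).trans
        (mul_eq_self hκ).le
      exact not_lt.1 b.2
    have hns : ¬ (S t \ Bad).Subsingleton := by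
      intro hsub
      have h2 : #(S t) ≤ #(S t \ Bad : Set 𝓑) + #Bad := by
        refine (mk_le_mk_of_subset ?_).trans (mk_union_le (S t \ Bad) Bad)
        rw [sdiff_union_self]
        exact subset_union_left
      have h3 : #(S t \ Bad : Set 𝓑) ≤ 1 := mk_le_one_iff_set_subsingleton.2 hsub
      have h4 : #(S t) ≤ κ := by
        refine h2.trans ((add_le_add (h3.trans (one_le_aleph0.trans hκ)) hBadκ).trans ?_)
        exact (add_eq_self hκ).le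
      exact ht2.not_ge h4
    obtain ⟨B, hB1, B', hB2, hne⟩ := not_subsingleton_iff.1 hns
    have hne' : B.1 ≠ B'.1 := fun h => hne (Subtype.ext h)
    obtain ⟨x, hx, y, hy, hxy, hyx⟩ := hsp B.1 B.2 B'.1 B'.2 hne'
    have htx : t ≤ x := by
      rcases (hch B.1 B.2).total hB1.1.2 hx with h | h
      · exact h
      · exfalso
        rcases (hch B'.1 B'.2).total hB2.1.2 hy with h' | h'
        · exact hxy (h.trans h')
        · rcases (hT t).total (mem_Iic.2 h) (mem_Iic.2 h') with h'' | h''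
          · exact hxy h''
          · exact hyx h''
    have hty : t ≤ y := by
      rcases (hch B'.1 B'.2).total hB2.1.2 hy with h | h
      · exact h
      · exact absurd (h.trans htx) hyx
    have key : ∀ (B : 𝓑) (z : T), B ∈ S t \ Bad → z ∈ B.1 → t ≤ z → z ∈ T0 := by
      intro B z hB1 hz htz
      refine ⟨ht1.trans htz, ?_⟩
      by_contra hcon
      exact hB1.2 (mem_iUnion.2 ⟨⟨z, hcon⟩, hB1.1.1, hz⟩)
    exact ⟨x, key B x hB1 hx htx, y, key B' y hB2 hy hty, htx, hty, hxy, hyx⟩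

end

/-! ### adding an antichain -/

/-- the type `K` as an antichain -/
structure Anti (K : Type) where
  /-- the element -/
  val : K

instance (K : Type) : PartialOrder (Anti K) where
  le a b := a = b
  le_refl _ := rfl
  le_trans _ _ _ h h' := h.trans h'
  le_antisymm _ _ h _ := h

/-- **Theorem.** -/
theorem main (κ : Cardinal.{0}) (hκ : ℵ₀ ≤ κ) (T : Type) [PartialOrder T]
    (hT : ∀ t : T, IsChain (· ≤ ·) (Iic t)) (hTκ : #T ≤ κ)
    (hB : κ < #{B : Set T // IsMaxChain (· ≤ ·) B ∧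
      ∀ C ⊆ B, C.Countable → ∃ b ∈ B, ∀ c ∈ C, c ≤ b}) :
    ∃ (X : Type) (_ : NormedAddCommGroup X) (_ : NormedSpace ℝ X), CompleteSpace X ∧
      HasDensity X κ ∧ ∀ N : X → ℝ, EquivNorm X N → ¬ Rotund N := by
  obtain ⟨K, hK⟩ : ∃ K : Type, #K = κ := ⟨κ.out, mk_out κ⟩
  have hAK : #(Anti K) = κ := by
    rw [← hK]
    exact mk_congr ⟨Anti.val, Anti.mk, fun _ => rfl, fun _ => rfl⟩
  have hTK : #(T ⊕ Anti K) = κ := by
    rw [mk_sum, lift_id, lift_id, hAK]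
    exact add_eq_right hκ hTκ
  have hT' : ∀ t : T ⊕ Anti K, IsChain (· ≤ ·) (Iic t) := by
    rintro (t | k) x hx y hy hxy
    · rcases x with x | x
      · rcases y with y | y
        · rcases (hT t).total (mem_Iic.2 (Sum.inl_le_inl_iff.1 hx))
            (mem_Iic.2 (Sum.inl_le_inl_iff.1 hy)) with h | h
          · exact Or.inl (Sum.inl_le_inl_iff.2 h)
          · exact Or.inr (Sum.inl_le_inl_iff.2 h)
        · exact absurd hy Sum.not_inr_le_inl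
      · exact absurd hx Sum.not_inr_le_inl
    · rcases x with x | x
      · exact absurd hx Sum.not_inl_le_inr
      · rcases y with y | y
        · exact absurd hy Sum.not_inl_le_inr
        · have h1 : x = k := Sum.inr_le_inr_iff.1 hx
          have h2 : y = k := Sum.inr_le_inr_iff.1 hy
          exact absurd (by rw [h1, h2]) hxy
  set 𝓑 : Set (Set (T ⊕ Anti K)) := (fun B : Set T => Sum.inl '' B) ''
    {B : Set T | IsMaxChain (· ≤ ·) B ∧ ∀ C ⊆ B, C.Countable → ∃ b ∈ B, ∀ c ∈ C, c ≤ b} with h𝓑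
  have hB' : κ < #𝓑 := by
    rw [h𝓑, mk_image_eq (image_injective.2 Sum.inl_injective)]
    exact hB
  refine ⟨span (T ⊕ Anti K), inferInstance, inferInstance, inferInstance, hasDensity _ hκ hTK,
    fun N hN => not_rotund_of_ever hT' ?_ hN⟩
  apply ever_of_branches hT' hκ hTK.le 𝓑 hB'
  · rintro _ ⟨B, ⟨hB1, -⟩, rfl⟩
    rintro _ ⟨x, hx, rfl⟩ _ ⟨y, hy, rfl⟩ -
    rcases hB1.isChain.total hx hy with h | h
    · exact Or.inl (Sum.inl_le_inl_iff.2 h)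
    · exact Or.inr (Sum.inl_le_inl_iff.2 h)
  · rintro _ ⟨B, ⟨-, hB2⟩, rfl⟩ C hC hCc
    obtain ⟨b, hb, hbC⟩ := hB2 (Sum.inl ⁻¹' C) (by
      intro x hx
      obtain ⟨y, hy, hxy⟩ := hC hx
      exact Sum.inl_injective hxy ▸ hy) (hCc.preimage Sum.inl_injective)
    refine ⟨Sum.inl b, ⟨b, hb, rfl⟩, fun c hc => ?_⟩
    obtain ⟨y, hy, rfl⟩ := hC hc
    exact Sum.inl_le_inl_iff.2 (hbC y hc)
  · rintro _ ⟨B, ⟨hB1, -⟩, rfl⟩ _ ⟨B', ⟨hB1', -⟩, rfl⟩ hne
    have hne' : B ≠ B' := fun h => hne (by rw [h])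
    have hnsub : ¬ B ⊆ B' := fun h => hne' (hB1.2 hB1'.1 h)
    obtain ⟨x, hx, hxB'⟩ := not_subset.1 hnsub
    have hex : ∃ y ∈ B', ¬ x ≤ y ∧ ¬ y ≤ x := by
      by_contra hcon
      push Not at hcon
      have hins : IsChain (· ≤ ·) (insert x B') := by
        apply hB1'.1.insert
        intro y hy _
        by_cases h : x ≤ y
        · exact Or.inl h
        · exact Or.inr (hcon y hy h)
      have := hB1'.2 hins (subset_insert x B')
      exact hxB' (this ▸ mem_insert x B')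
    obtain ⟨y, hy, h1, h2⟩ := hex
    exact ⟨Sum.inl x, ⟨x, hx, rfl⟩, Sum.inl y, ⟨y, hy, rfl⟩,
      fun h => h1 (Sum.inl_le_inl_iff.1 h), fun h => h2 (Sum.inl_le_inl_iff.1 h)⟩

end Pool.Agent.KW4
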